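import Pool.Agent.H.MP_6f1842_lc.B

open MeasureTheory Pool.Agent.H.MP_6f1842_lc

namespace Pool.Agent.Results.MP_6f1842_lc.Main

universe u

theorem result :
    (∃ C : ℕ → ℕ → Set (ℤ → Bool), (∀ k N, IsClosed (C k N)) ∧
      {c : ℤ → Bool | Kazhdan.{u} {n | c n = true}}ᶜ = ⋂ k, ⋃ N, C k N) ∧
    MeasurableSet[borel (ℤ → Bool)] {c | Kazhdan.{u} {n | c n = true}} ∧
    MeasurableSet[borel (ℤ → Bool)]
      {c | Generating {n | c n = true} ∧ ¬ Kazhdan.{u} {n | c n = true}} :=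
  main

end Pool.Agent.Results.MP_6f1842_lc.Main
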